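import Pool.Agent.Y862.SQ.Stm3
import Pool.Agent.Y862.JL.Stm

set_option autoImplicit false

/-!
# Project SQ, third part (helper862), job PJ: the joint Poisson law at primes

Proved by helper794.
-/

namespace Pool.Agent.Y794.SQ

open Finset Pool.Agent.Y862.SQ

lemma arith (l c Sg S1 S0 Y P η1 η X1 : ℝ) (hl : 0 < l) (hc : 0 ≤ c) (hSg : 0 ≤ Sg)
    (hP0 : 0 ≤ P) (hP1 : P ≤ X1) (hX1 : 1 ≤ X1) (hη1 : 0 < η1) (hη18 : η1 ≤ 1 / 8)
    (hη : 20 * (X1 * η1) ≤ η)
    (a1 : Sg * l ≤ S1) (a2 : S1 ≤ Sg * (l * (1 + η1)))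
    (b1 : c * l ≤ S0) (b2 : S0 ≤ c * (l * (1 + η1)))
    (h3 : |S1 - Y * P| ≤ 2 * η1 * Y) (h4 : |S0 - Y| ≤ 2 * η1 * Y) :
    |Sg - c * P| ≤ η * c := by
  obtain ⟨h31, h32⟩ := abs_le.1 h3
  obtain ⟨h41, h42⟩ := abs_le.1 h4
  have hXη : η1 ≤ X1 * η1 := by nlinarith
  have hPη : P * η1 ≤ X1 * η1 := mul_le_mul_of_nonneg_right hP1 hη1.le
  have hη0 : 0 < η := by linarith
  have hηη : η1 * η ≤ 1 / 8 * η := mul_le_mul_of_nonneg_right hη18 hη0.le
  have hηη0 : 0 ≤ η1 * η := by positivity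
  have hη2 : η1 * η1 ≤ 1 / 8 * η1 := mul_le_mul_of_nonneg_right hη18 hη1.le
  rw [abs_le]
  constructor
  · have g : c * (P - η) ≤ Sg := by
      by_cases hPe : P ≤ η
      · exact (mul_nonpos_of_nonneg_of_nonpos hc (by linarith)).trans hSg
      · push Not at hPe
        have e1 : c * l ≤ Y * (1 + 2 * η1) := by linarith
        have e2 : Y * (P - 2 * η1) ≤ Sg * (l * (1 + η1)) := by linarith
        have e3 : 0 ≤ P - 2 * η1 := by linarith
        have e4 : c * l * (P - 2 * η1) ≤ Sg * (l * (1 + η1)) * (1 + 2 * η1) := by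
          calc c * l * (P - 2 * η1) ≤ Y * (1 + 2 * η1) * (P - 2 * η1) :=
                mul_le_mul_of_nonneg_right e1 e3
            _ = Y * (P - 2 * η1) * (1 + 2 * η1) := by ring
            _ ≤ Sg * (l * (1 + η1)) * (1 + 2 * η1) :=
                mul_le_mul_of_nonneg_right e2 (by linarith)
        have e5 : c * (P - 2 * η1) ≤ Sg * ((1 + η1) * (1 + 2 * η1)) := by
          have h : l * (c * (P - 2 * η1)) ≤ l * (Sg * ((1 + η1) * (1 + 2 * η1))) := by
            calc l * (c * (P - 2 * η1)) = c * l * (P - 2 * η1) := by ring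
              _ ≤ Sg * (l * (1 + η1)) * (1 + 2 * η1) := e4
              _ = _ := by ring
          exact le_of_mul_le_mul_left h hl
        have e6 : (1 + η1) * (1 + 2 * η1) ≤ 1 + 4 * η1 := by nlinarith
        have e7 : c * (P - 2 * η1) ≤ Sg * (1 + 4 * η1) :=
          e5.trans (mul_le_mul_of_nonneg_left e6 hSg)
        have e8 : (P - η) * (1 + 4 * η1) ≤ P - 2 * η1 := by nlinarith
        have e9 : c * (P - η) * (1 + 4 * η1) ≤ Sg * (1 + 4 * η1) := by
          calc c * (P - η) * (1 + 4 * η1) = c * ((P - η) * (1 + 4 * η1)) := by ring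
            _ ≤ c * (P - 2 * η1) := mul_le_mul_of_nonneg_left e8 hc
            _ ≤ _ := e7
        exact le_of_mul_le_mul_right e9 (by linarith)
    linarith
  · have g : Sg ≤ c * (P + η) := by
      have e1 : Y * (1 - 2 * η1) ≤ c * (l * (1 + η1)) := by linarith
      have e2 : Sg * l ≤ Y * (P + 2 * η1) := by linarith
      have e4 : Sg * l * (1 - 2 * η1) ≤ c * (l * (1 + η1)) * (P + 2 * η1) := by
        calc Sg * l * (1 - 2 * η1) ≤ Y * (P + 2 * η1) * (1 - 2 * η1) :=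
              mul_le_mul_of_nonneg_right e2 (by linarith)
          _ = Y * (1 - 2 * η1) * (P + 2 * η1) := by ring
          _ ≤ c * (l * (1 + η1)) * (P + 2 * η1) :=
              mul_le_mul_of_nonneg_right e1 (by linarith)
      have e5 : Sg * (1 - 2 * η1) ≤ c * ((1 + η1) * (P + 2 * η1)) := by
        have h : l * (Sg * (1 - 2 * η1)) ≤ l * (c * ((1 + η1) * (P + 2 * η1))) := by
          calc l * (Sg * (1 - 2 * η1)) = Sg * l * (1 - 2 * η1) := by ring
            _ ≤ c * (l * (1 + η1)) * (P + 2 * η1) := e4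
            _ = _ := by ring
        exact le_of_mul_le_mul_left h hl
      have e6 : (1 + η1) * (P + 2 * η1) ≤ (P + η) * (1 - 2 * η1) := by nlinarith
      have e7 : Sg * (1 - 2 * η1) ≤ c * (P + η) * (1 - 2 * η1) := by
        calc Sg * (1 - 2 * η1) ≤ c * ((1 + η1) * (P + 2 * η1)) := e5
          _ ≤ c * ((P + η) * (1 - 2 * η1)) := mul_le_mul_of_nonneg_left e6 hc
          _ = _ := by ring
      exact le_of_mul_le_mul_right e7 (by linarith)
    linarith

lemma V1_nonneg (y : ℕ) : 0 ≤ V1 y := by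
  unfold V1
  apply prod_nonneg
  intro p hp
  have hp1 : p.Prime := (mem_filter.1 hp).2
  have hp0 : (1 : ℝ) ≤ p := by exact_mod_cast hp1.one_le
  have h3 : 1 / (p : ℝ) ≤ 1 := by
    rw [div_le_one (by linarith)]
    exact hp0
  linarith

lemma V1_ge (y : ℕ) (hy : 1 ≤ y) : 1 / (y : ℝ) ≤ V1 y := by
  induction y, hy using Nat.le_induction with
  | base =>
    have h : pr 1 = ∅ := by
      unfold pr
      rw [Finset.filter_eq_empty_iff]
      intro p hp hpp
      rw [mem_Icc] at hp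
      have := hpp.two_le
      omega
    unfold V1
    rw [h, prod_empty]
    simp
  | succ n hn ih =>
    have hn0 : (0 : ℝ) < n := by exact_mod_cast hn
    have hc : ((n + 1 : ℕ) : ℝ) = n + 1 := by push_cast; ring
    by_cases hp : (n + 1).Prime
    · have h : pr (n + 1) = insert (n + 1) (pr n) := by
        ext p
        simp only [pr, mem_filter, mem_Icc, mem_insert]
        constructor
        · rintro ⟨⟨h1, h2⟩, h3⟩
          by_cases hpn : p = n + 1
          · exact Or.inl hpn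
          · exact Or.inr ⟨⟨h1, by omega⟩, h3⟩
        · rintro (rfl | ⟨⟨h1, h2⟩, h3⟩)
          · exact ⟨⟨by omega, le_rfl⟩, hp⟩
          · exact ⟨⟨h1, by omega⟩, h3⟩
      have h2 : n + 1 ∉ pr n := by
        unfold pr
        rw [mem_filter, mem_Icc]
        omega
      have h3 : V1 (n + 1) = (1 - 1 / ((n + 1 : ℕ) : ℝ)) * V1 n := by
        unfold V1
        rw [h, prod_insert h2]
      rw [h3, hc]
      have h4 : 1 - 1 / ((n : ℝ) + 1) = n / (n + 1) := by
        field_simp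
        ring
      rw [h4]
      calc 1 / ((n : ℝ) + 1) = n / (n + 1) * (1 / n) := by field_simp
        _ ≤ n / (n + 1) * V1 n := mul_le_mul_of_nonneg_left ih (by positivity)
    · have h : pr (n + 1) = pr n := by
        ext p
        simp only [pr, mem_filter, mem_Icc]
        constructor
        · rintro ⟨⟨h1, h2⟩, h3⟩
          have hpn : p ≠ n + 1 := fun h => hp (h ▸ h3)
          exact ⟨⟨h1, by omega⟩, h3⟩
        · rintro ⟨⟨h1, h2⟩, h3⟩
          exact ⟨⟨h1, by omega⟩, h3⟩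
      have h3 : V1 (n + 1) = V1 n := by
        unfold V1
        rw [h]
      rw [h3, hc]
      refine le_trans ?_ ih
      exact one_div_le_one_div_of_le hn0 (by linarith)

lemma Nj_le (y a : ℕ) (c : ℤ) (L n : ℕ) : Nj y a c L n ≤ L := by
  classical
  unfold Nj
  refine (card_filter_le _ _).trans ?_
  rw [Int.card_Ioc]
  simp

/-- the prime powers -/
lemma pp_bound (X Z Y : ℕ) (hX : 1 ≤ X) (hZY : Z + Y ≤ 2 * X) (g : ℕ → ℝ) (G : ℝ)
    (hG : 0 ≤ G) (hg : ∀ n, 0 ≤ g n ∧ g n ≤ G) :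
    0 ≤ ∑ n ∈ (Ioc Z (Z + Y)).filter (fun n => ¬ n.Prime),
      ArithmeticFunction.vonMangoldt n * g n ∧
    ∑ n ∈ (Ioc Z (Z + Y)).filter (fun n => ¬ n.Prime),
      ArithmeticFunction.vonMangoldt n * g n ≤
      G * (2 * √(2 * (X : ℝ)) * Real.log (2 * X)) := by
  constructor
  · exact sum_nonneg fun n _ => mul_nonneg ArithmeticFunction.vonMangoldt_nonneg (hg n).1
  · have h1 := Chebyshev.psi_sub_theta_le (x := 2 * (X : ℝ)) (by
      have : (1 : ℝ) ≤ X := by exact_mod_cast hX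
      linarith)
    have h2 := Chebyshev.psi_sub_theta_eq_sum_not_prime (2 * (X : ℝ))
    have h3 : ⌊(2 * (X : ℝ))⌋₊ = 2 * X := by
      have : (2 * (X : ℝ)) = ((2 * X : ℕ) : ℝ) := by push_cast; ring
      rw [this, Nat.floor_natCast]
    rw [h3] at h2
    rw [h2] at h1
    calc ∑ n ∈ (Ioc Z (Z + Y)).filter (fun n => ¬ n.Prime),
          ArithmeticFunction.vonMangoldt n * g n ≤
          ∑ n ∈ (Ioc Z (Z + Y)).filter (fun n => ¬ n.Prime),
            ArithmeticFunction.vonMangoldt n * G :=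
          sum_le_sum fun n _ => mul_le_mul_of_nonneg_left (hg n).2
            ArithmeticFunction.vonMangoldt_nonneg
      _ = G * ∑ n ∈ (Ioc Z (Z + Y)).filter (fun n => ¬ n.Prime),
            ArithmeticFunction.vonMangoldt n := by
          rw [← sum_mul, mul_comm]
      _ ≤ G * ∑ n ∈ (Ioc 0 (2 * X)).filter (fun n => ¬ n.Prime),
            ArithmeticFunction.vonMangoldt n := by
          refine mul_le_mul_of_nonneg_left ?_ hG
          apply sum_le_sum_of_subset_of_nonneg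
          · intro n hn
            rw [mem_filter, mem_Ioc] at hn ⊢
            exact ⟨⟨by omega, by omega⟩, hn.2⟩
          · intro n _ _
            exact ArithmeticFunction.vonMangoldt_nonneg
      _ ≤ G * (2 * √(2 * (X : ℝ)) * Real.log (2 * X)) := mul_le_mul_of_nonneg_left h1 hG

lemma num_bound (X : ℕ) (hX : 1 ≤ X) (E D : ℝ) (hE : 0 ≤ E) (hD : 0 < D)
    (h : (64 * E / D) ^ 8 ≤ (X : ℝ)) :
    E * (X : ℝ) ^ (1 / 4 : ℝ) * (2 * √(2 * (X : ℝ)) * Real.log (2 * X)) ≤ D * X := by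
  have hX1 : (1 : ℝ) ≤ X := by exact_mod_cast hX
  have hX0 : (0 : ℝ) ≤ X := by linarith
  obtain ⟨t, ht⟩ : ∃ t : ℝ, t = (X : ℝ) ^ (1 / 8 : ℝ) := ⟨_, rfl⟩
  have ht1 : 1 ≤ t := by rw [ht]; exact Real.one_le_rpow hX1 (by norm_num)
  have ht8 : t ^ 8 = (X : ℝ) := by
    rw [ht, ← Real.rpow_natCast, ← Real.rpow_mul hX0]
    norm_num
  have ht2 : (X : ℝ) ^ (1 / 4 : ℝ) = t ^ 2 := by
    rw [ht, ← Real.rpow_natCast, ← Real.rpow_mul hX0]
    norm_num
  have hs : √(2 * (X : ℝ)) ≤ 2 * t ^ 4 := by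
    apply Real.sqrt_le_iff.2
    refine ⟨by positivity, ?_⟩
    have e : (2 * t ^ 4) ^ 2 = 4 * t ^ 8 := by ring
    rw [e, ht8]
    linarith
  have hl : Real.log (2 * (X : ℝ)) ≤ 8 * t := by
    rw [← ht8, Real.log_mul (by norm_num) (by positivity), Real.log_pow]
    have h1 := Real.log_le_sub_one_of_pos (show 0 < t by linarith)
    have h2 := Real.log_two_lt_d9
    push_cast
    linarith
  have hl0 : 0 ≤ Real.log (2 * (X : ℝ)) := Real.log_nonneg (by linarith)
  have hDt : 64 * E / D ≤ t := by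
    have h1 : (64 * E / D) ^ 8 ≤ t ^ 8 := by rw [ht8]; exact h
    exact le_of_pow_le_pow_left₀ (by norm_num) (by linarith) h1
  rw [div_le_iff₀ hD] at hDt
  rw [ht2]
  calc E * t ^ 2 * (2 * √(2 * (X : ℝ)) * Real.log (2 * X)) ≤
        E * t ^ 2 * (2 * (2 * t ^ 4) * (8 * t)) := by gcongr
    _ = 32 * E * t ^ 7 := by ring
    _ ≤ 64 * E * t ^ 7 := by
        have : 0 ≤ E * t ^ 7 := by positivity
        linarith
    _ ≤ t * D * t ^ 7 := mul_le_mul_of_nonneg_right hDt (by positivity)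
    _ = D * t ^ 8 := by ring
    _ = D * X := by rw [ht8]

theorem t_PJ (h0 : Pool.Agent.Y862.JL.S_JLAW) (h1 : S_LMOM) : S_PJ := by
  classical
  intro k δ x0 ε hδ hx0 hε
  obtain ⟨R, η, hη, htv⟩ := h0 k (2 * x0) ε (by linarith) hε
  obtain ⟨R', hR'⟩ : ∃ R', R' = max R 1 := ⟨_, rfl⟩
  have hRR : R ≤ R' := by rw [hR']; exact le_max_left _ _
  have hR1 : 1 ≤ R' := by rw [hR']; exact le_max_right _ _
  obtain ⟨X1, hX1⟩ : ∃ X1 : ℝ, X1 = (1 + 2 * x0) ^ (k * R') := ⟨_, rfl⟩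
  have hX1one : 1 ≤ X1 := by rw [hX1]; exact one_le_pow₀ (by linarith)
  obtain ⟨η1, hη1⟩ : ∃ η1 : ℝ, η1 = min (1 / 8) (η / (20 * X1)) := ⟨_, rfl⟩
  have hη10 : 0 < η1 := by rw [hη1]; positivity
  have hη11 : η1 ≤ 1 / 8 := by rw [hη1]; exact min_le_left _ _
  have hη12 : 20 * (X1 * η1) ≤ η := by
    have h : η1 ≤ η / (20 * X1) := by rw [hη1]; exact min_le_right _ _
    rw [le_div_iff₀ (by positivity)] at h
    linarith
  obtain ⟨r0, hr0⟩ := h1 k R' δ x0 η1 hδ hx0 hη10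
  refine ⟨max r0 (4 * (R' * k) + 1), ?_⟩
  intro r hr
  obtain ⟨Xa, M0, hmom⟩ := hr0 r ((le_max_left _ _).trans hr)
  have hr4 : 4 * (R' * k) + 1 ≤ r := (le_max_right _ _).trans hr
  obtain ⟨E, hE⟩ : ∃ E : ℝ, E = (2 * x0 + 1) ^ (R' * k) := ⟨_, rfl⟩
  have hE0 : 0 ≤ E := by rw [hE]; positivity
  obtain ⟨Xb, hXb⟩ : ∃ Xb : ℕ, (64 * E / (η1 * δ)) ^ 8 ≤ (Xb : ℝ) := exists_nat_ge _
  obtain ⟨Xc, hXc⟩ : ∃ Xc : ℕ, Real.exp (1 / η1) ≤ (Xc : ℝ) := exists_nat_ge _
  refine ⟨Xa + Xb + Xc + 2, M0, ?_⟩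
  intro X hX Z Y hZ hZY hYd M hM hMx a c L hW A
  have hmom' := hmom X (by omega) Z Y hZ hZY hYd M hM hMx a c L
  obtain ⟨y, hy⟩ : ∃ y : ℕ, y = ⌊(X : ℝ) ^ (1 / (r : ℝ))⌋₊ := ⟨_, rfl⟩
  rw [← hy] at hMx hmom' ⊢
  clear hmom
  have hX1' : 1 ≤ X := by omega
  have hXr1 : (1 : ℝ) ≤ X := by exact_mod_cast hX1'
  have hX2 : (2 : ℝ) ≤ X := by exact_mod_cast (by omega : 2 ≤ X)
  have hX0 : (0 : ℝ) < X := by linarith
  have hr0' : (0 : ℝ) < r := by exact_mod_cast (by omega : 0 < r)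
  obtain ⟨v, hv⟩ : ∃ v, v = V1 y := ⟨_, rfl⟩
  have hv0 : 0 ≤ v := by rw [hv]; exact V1_nonneg y
  -- the bound for `M`
  have hp1 : 1 ≤ (X : ℝ) ^ (1 / (r : ℝ)) := Real.one_le_rpow hXr1 (by positivity)
  have hy1 : 1 ≤ y := by
    rw [hy]
    exact Nat.le_floor (by rw [Nat.cast_one]; exact hp1)
  have hyX : (y : ℝ) ≤ (X : ℝ) ^ (1 / (r : ℝ)) := by
    rw [hy]
    exact Nat.floor_le (by linarith)
  have hMy : (M : ℝ) ≤ x0 * y := by
    have hy0 : (0 : ℝ) < y := by exact_mod_cast hy1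
    have h2 := V1_ge y hy1
    have h3 : (M : ℝ) * (1 / y) ≤ x0 := (mul_le_mul_of_nonneg_left h2 (Nat.cast_nonneg M)).trans hMx
    rw [mul_one_div, div_le_iff₀ hy0] at h3
    exact h3
  have hMX : (2 * (M : ℝ) + 1) ≤ (2 * x0 + 1) * (X : ℝ) ^ (1 / (r : ℝ)) := by
    have h2 : x0 * y ≤ x0 * (X : ℝ) ^ (1 / (r : ℝ)) := mul_le_mul_of_nonneg_left hyX hx0
    linarith
  obtain ⟨G, hGdef⟩ : ∃ G : ℝ, G = (2 * (M : ℝ) + 1) ^ (R' * k) := ⟨_, rfl⟩
  have hG0 : 0 ≤ G := by rw [hGdef]; positivity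
  have hGX : G ≤ E * (X : ℝ) ^ (1 / 4 : ℝ) := by
    rw [hGdef]
    calc (2 * (M : ℝ) + 1) ^ (R' * k) ≤ ((2 * x0 + 1) * (X : ℝ) ^ (1 / (r : ℝ))) ^ (R' * k) :=
          pow_le_pow_left₀ (by positivity) hMX _
      _ = E * ((X : ℝ) ^ (1 / (r : ℝ))) ^ (R' * k) := by rw [mul_pow, hE]
      _ ≤ E * (X : ℝ) ^ (1 / 4 : ℝ) := by
          refine mul_le_mul_of_nonneg_left ?_ hE0
          rw [← Real.rpow_natCast, ← Real.rpow_mul hX0.le]
          apply Real.rpow_le_rpow_of_exponent_le hXr1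
          rw [one_div_mul_eq_div, div_le_div_iff₀ hr0' (by norm_num)]
          have : ((4 * (R' * k) + 1 : ℕ) : ℝ) ≤ r := by exact_mod_cast hr4
          push_cast at this ⊢
          linarith
  have hLM : ∀ j, L j ≤ 2 * M := by
    intro j
    have := hW.1 j
    omega
  have hYpos : 0 < (Y : ℝ) := lt_of_lt_of_le (mul_pos hδ hX0) hYd
  have hPPb : G * (2 * √(2 * (X : ℝ)) * Real.log (2 * X)) ≤ η1 * Y := by
    have h2 := num_bound X hX1' E (η1 * δ) hE0 (by positivity)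
      (hXb.trans (by exact_mod_cast (by omega : Xb ≤ X)))
    have h3 : 0 ≤ 2 * √(2 * (X : ℝ)) * Real.log (2 * X) := by
      have := Real.log_nonneg (show 1 ≤ 2 * (X : ℝ) by linarith)
      positivity
    calc G * (2 * √(2 * (X : ℝ)) * Real.log (2 * X)) ≤
          E * (X : ℝ) ^ (1 / 4 : ℝ) * (2 * √(2 * (X : ℝ)) * Real.log (2 * X)) :=
          mul_le_mul_of_nonneg_right hGX h3
      _ ≤ η1 * δ * X := h2
      _ = η1 * (δ * X) := by ring
      _ ≤ η1 * Y := mul_le_mul_of_nonneg_left hYd hη10.le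
  -- the logarithm
  obtain ⟨l, hl⟩ : ∃ l, l = Real.log X := ⟨_, rfl⟩
  have hl1 : 1 / η1 ≤ l := by
    rw [hl, Real.le_log_iff_exp_le hX0]
    exact hXc.trans (by exact_mod_cast (by omega : Xc ≤ X))
  have hl0 : 0 < l := lt_of_lt_of_le (by positivity) hl1
  have hlη : 1 ≤ η1 * l := by
    rw [div_le_iff₀ hη10] at hl1
    linarith
  obtain ⟨Om, hOm⟩ : ∃ Om, Om = (Ioc Z (Z + Y)).filter Nat.Prime := ⟨_, rfl⟩
  rw [← hOm]
  have hlog : ∀ n ∈ Om, l ≤ Real.log n ∧ Real.log n ≤ l * (1 + η1) := by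
    intro n hn
    rw [hOm, mem_filter, mem_Ioc] at hn
    have h2 : (X : ℝ) ≤ n := by exact_mod_cast (by omega : X ≤ n)
    have h3 : (n : ℝ) ≤ 2 * X := by exact_mod_cast (by omega : n ≤ 2 * X)
    constructor
    · rw [hl]
      exact Real.log_le_log hX0 h2
    · have h4 : Real.log n ≤ Real.log (2 * X) := Real.log_le_log (by linarith) h3
      rw [Real.log_mul (by norm_num) hX0.ne', ← hl] at h4
      have h5 := Real.log_two_lt_d9
      nlinarith
  obtain ⟨g, hg⟩ : ∃ g : (Fin k → ℕ) → ℕ → ℝ, g = fun q n =>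
      ∏ j, ((Nj y (a j) (c j) (L j) n).choose (q j) : ℝ) := ⟨_, rfl⟩
  obtain ⟨P, hP⟩ : ∃ P : (Fin k → ℕ) → ℝ, P = fun q =>
      ∏ j, (((L j : ℝ) * v) ^ q j / (q j).factorial) := ⟨_, rfl⟩
  have hgb : ∀ q : Fin k → ℕ, (∀ j, q j < R') → ∀ n, 0 ≤ g q n ∧ g q n ≤ G := by
    intro q hq n
    rw [hg]
    refine ⟨prod_nonneg fun j _ => Nat.cast_nonneg _, ?_⟩
    have h2 : ∀ j, ((Nj y (a j) (c j) (L j) n).choose (q j) : ℝ) ≤ (2 * (M : ℝ) + 1) ^ R' := by
      intro j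
      have h3 : (Nj y (a j) (c j) (L j) n).choose (q j) ≤ (2 * M + 1) ^ R' := by
        calc (Nj y (a j) (c j) (L j) n).choose (q j) ≤ (Nj y (a j) (c j) (L j) n) ^ q j :=
              Nat.choose_le_pow _ _
          _ ≤ (2 * M + 1) ^ q j := Nat.pow_le_pow_left
              (((Nj_le _ _ _ _ _).trans (hLM j)).trans (Nat.le_succ _)) _
          _ ≤ (2 * M + 1) ^ R' := Nat.pow_le_pow_right (Nat.succ_pos _) (hq j).le
      exact_mod_cast h3
    calc ∏ j, ((Nj y (a j) (c j) (L j) n).choose (q j) : ℝ) ≤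
          ∏ _j : Fin k, (2 * (M : ℝ) + 1) ^ R' :=
          prod_le_prod (fun j _ => Nat.cast_nonneg _) (fun j _ => h2 j)
      _ = G := by
          rw [prod_const, card_univ, Fintype.card_fin, ← pow_mul, hGdef]
  have key : ∀ q : Fin k → ℕ, (∀ j, q j < R') →
      |∑ n ∈ Om, Real.log n * g q n - Y * P q| ≤ 2 * η1 * Y := by
    intro q hq
    have h2 := hmom' q hW hq
    have h3 := pp_bound X Z Y hX1' hZY (g q) G hG0 (hgb q hq)
    have h4 : ∑ n ∈ Ioc Z (Z + Y), ArithmeticFunction.vonMangoldt n * g q n =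
        ∑ n ∈ Om, Real.log n * g q n + ∑ n ∈ (Ioc Z (Z + Y)).filter (fun n => ¬ n.Prime),
          ArithmeticFunction.vonMangoldt n * g q n := by
      rw [← sum_filter_add_sum_filter_not (Ioc Z (Z + Y)) Nat.Prime, hOm]
      congr 1
      apply sum_congr rfl
      intro n hn
      rw [ArithmeticFunction.vonMangoldt_apply_prime (mem_filter.1 hn).2]
    have h5 : |∑ n ∈ Ioc Z (Z + Y), ArithmeticFunction.vonMangoldt n * g q n - Y * P q| ≤
        η1 * Y := by
      rw [hg, hP, hv]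
      exact h2
    rw [h4] at h5
    obtain ⟨h51, h52⟩ := abs_le.1 h5
    rw [abs_le]
    constructor <;> linarith [h3.1, h3.2]
  have key0 : |∑ n ∈ Om, Real.log n - (Y : ℝ)| ≤ 2 * η1 * Y := by
    have h2 := key (fun _ => 0) (fun _ => by omega)
    have e1 : ∀ n, g (fun _ => 0) n = 1 := by
      intro n
      rw [hg]
      simp
    have e2 : P (fun _ => 0) = 1 := by
      rw [hP]
      simp
    rw [e2, mul_one] at h2
    simp only [e1, mul_one] at h2
    exact h2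
  have hLv : ∀ j, 0 ≤ (L j : ℝ) * v ∧ (L j : ℝ) * v ≤ 2 * x0 := by
    intro j
    refine ⟨mul_nonneg (Nat.cast_nonneg _) hv0, ?_⟩
    have h2 : (L j : ℝ) ≤ 2 * M := by exact_mod_cast hLM j
    rw [← hv] at hMx
    calc (L j : ℝ) * v ≤ 2 * M * v := mul_le_mul_of_nonneg_right h2 hv0
      _ = 2 * (M * v) := by ring
      _ ≤ 2 * x0 := by linarith
  have hb1 : (Om.card : ℝ) * l ≤ ∑ n ∈ Om, Real.log n := by
    rw [← nsmul_eq_mul]
    exact card_nsmul_le_sum _ _ _ fun n hn => (hlog n hn).1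
  have hb2 : ∑ n ∈ Om, Real.log n ≤ (Om.card : ℝ) * (l * (1 + η1)) := by
    rw [← nsmul_eq_mul]
    exact sum_le_card_nsmul _ _ _ fun n hn => (hlog n hn).2
  have hmain := htv Om (fun j n => Nj y (a j) (c j) (L j) n) (fun j => (L j : ℝ) * v) hLv (by
    intro q hq
    have hq' : ∀ j, q j < R' := fun j => (hq j).trans_le hRR
    have e1 : ∑ n ∈ Om, ∏ j, ((Nj y (a j) (c j) (L j) n).choose (q j) : ℝ) = ∑ n ∈ Om, g q n := by
      rw [hg]
    have e2 : ∏ j, (((L j : ℝ) * v) ^ q j / (q j).factorial) = P q := by rw [hP]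
    rw [e1, e2]
    have hP0 : 0 ≤ P q := by
      rw [hP]
      exact prod_nonneg fun j _ => div_nonneg (pow_nonneg (hLv j).1 _) (Nat.cast_nonneg _)
    have hK : ∑ j, q j ≤ k * R' := by
      calc ∑ j, q j ≤ ∑ _j : Fin k, R' := sum_le_sum fun j _ => (hq' j).le
        _ = k * R' := by simp
    have hP1 : P q ≤ X1 := by
      rw [hP, hX1]
      calc ∏ j, (((L j : ℝ) * v) ^ q j / (q j).factorial) ≤ ∏ j, (1 + 2 * x0) ^ q j := by
            apply prod_le_prod
            · intro j _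
              exact div_nonneg (pow_nonneg (hLv j).1 _) (Nat.cast_nonneg _)
            · intro j _
              have hf1 : (1 : ℝ) ≤ (q j).factorial := by exact_mod_cast Nat.factorial_pos (q j)
              have h5 : 0 ≤ ((L j : ℝ) * v) ^ q j := pow_nonneg (hLv j).1 _
              exact (div_le_self h5 hf1).trans (pow_le_pow_left₀ (hLv j).1
                (by linarith [(hLv j).2]) _)
        _ = (1 + 2 * x0) ^ (∑ j, q j) := prod_pow_eq_pow_sum _ _ _
        _ ≤ (1 + 2 * x0) ^ (k * R') := pow_le_pow_right₀ (by linarith) hK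
    refine arith l Om.card (∑ n ∈ Om, g q n) (∑ n ∈ Om, Real.log n * g q n)
      (∑ n ∈ Om, Real.log n) Y (P q) η1 η X1 hl0 (Nat.cast_nonneg _)
      (sum_nonneg fun n _ => (hgb q hq' n).1) hP0 hP1 hX1one hη10 hη11 hη12 ?_ ?_ hb1 hb2
      (key q hq') key0
    · rw [sum_mul]
      apply sum_le_sum
      intro n hn
      rw [mul_comm]
      exact mul_le_mul_of_nonneg_right (hlog n hn).1 (hgb q hq' n).1
    · rw [sum_mul]
      apply sum_le_sum
      intro n hn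
      rw [mul_comm (g q n)]
      exact mul_le_mul_of_nonneg_right (hlog n hn).2 (hgb q hq' n).1) A
  rw [hv] at hmain
  exact hmain

end Pool.Agent.Y794.SQ
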